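import Pool.Agent.R187.CT.Base
import Pool.Agent.H176.DT.G1
import Pool.Agent.H176.DT.H8
import Pool.Agent.TH188.QS.LU

/-!
MP_53121e_ag: local uniformization, in arbitrary dimension and rank, of composites and of towers
without defect over discrete, divergent and known places.

Let `K / k` be an algebraic function field in any number of variables over an arbitrary field `k`
(for example, of characteristic `p > 0` and not perfect), and let `V` be a valuation ring of `K / k`,
of arbitrary rank. Suppose that `V` is in the smallest class of valuations of finitely generated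
extension fields of `k`, and of their residue fields, which contains

1. the trivial and the discrete valuations (with arbitrary residue fields and defect) and the
   valuations with divergent sequences of quadratic transforms,
2. the valuations which are log uniformizable on all affine models (for example, if the
   transcendence degree is at most `3`, by Cossart and Piltant),
3. the composites of two valuations in the class, and
4. the valuations `V` of a field which is reached by a tower without defect (wild ramification and
   inseparable residue extensions are allowed) from a finitely generated subfield on which `V` is in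
   the class.

Then `V` admits local uniformization: `K` has a projective model on which the centre of `V` is a
regular point. Moreover `V` is log uniformizable on all affine models of `K`.
-/

set_option autoImplicit false

universe u

namespace Pool.Agent.Results.MP_53121e_ag.CompositesAndTowers

open IsLocalRing Pool.Agent.W418.LU2 Pool.Agent.TH188.QS

/-- The coordinate ring `k[H l / H j : l]` of the chart `j` of the projective model of `K` with the
homogeneous coordinates `H`. -/
def modelChart (k : Type u) {K : Type u} [Field k] [Field K] [Algebra k K] {N : ℕ} (H : Fin N → K)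
    (j : Fin N) : Subalgebra k K :=
  Algebra.adjoin k (Set.range fun l => H l / H j)

/-- The function field `K` of `k` has a projective model (with homogeneous coordinates `H`) on
which the centre of the valuation ring `V` is a regular point. The chart `j` contains the centre of
`V`, and `P` is the ideal of the centre. -/
def IsUniformizable (k : Type u) {K : Type u} [Field k] [Field K] [Algebra k K]
    (V : ValuationSubring K) : Prop :=
  ∃ (N : ℕ) (H : Fin N → K) (j : Fin N), H j ≠ 0 ∧ (∀ l, H l / H j ∈ V) ∧
    (∀ z : K, ∃ a ∈ modelChart k H j, ∃ b ∈ modelChart k H j, b ≠ 0 ∧ z = a / b) ∧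
    ∃ P : Ideal (modelChart k H j), ∃ (_ : P.IsPrime),
      (∀ b : modelChart k H j, b ∈ P ↔ V.valuation (b : K) < 1) ∧
        IsRegularLocalRing (Localization.AtPrime P)

/-- The local ring of `Spec B` at the centre of the valuation ring `V`: the fractions of elements
of `B` whose denominators are units of `V`. -/
def centreRing {F : Type u} [Field F] (V : ValuationSubring F) (B : Subring F) : Subring F where
  carrier := {x | ∃ a ∈ B, ∃ b ∈ B, b ≠ 0 ∧ b⁻¹ ∈ V ∧ x = a * b⁻¹}
  mul_mem' := (lo V.toSubring B).mul_mem'
  one_mem' := (lo V.toSubring B).one_mem'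
  add_mem' := (lo V.toSubring B).add_mem'
  zero_mem' := (lo V.toSubring B).zero_mem'
  neg_mem' := (lo V.toSubring B).neg_mem'

/-- The chart `A[I / f]` of the blowing-up of `Spec A` in the ideal `I`. -/
def blowUpChart {F : Type u} [Field F] (A : Subring F) (I : Ideal A) (f : A) : Subring F :=
  Subring.closure ((A : Set F) ∪ {z | ∃ a ∈ I, z = (a : F) / (f : F)})

/-- `P` is a regular local ring and the zero set of `J` is a divisor with strict normal
crossings: the radical of `J` is generated by the product of some of the elements of a regular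
system of parameters. -/
def RegularPair (P : Type u) [CommRing P] (J : Ideal P) : Prop :=
  ∃ (_ : IsRegularLocalRing P) (n : ℕ) (x : Fin n → P) (s : Finset (Fin n)),
    Ideal.span (Set.range x) = IsLocalRing.maximalIdeal P ∧ ringKrullDim P = n ∧
      J.radical = Ideal.span {∏ i ∈ s, x i}

/-- The blowing-up of `X = Spec A` in `V(I)` is a log desingularization of `(X, V(D))` along the
valuation ring `V`. Here `f ∈ I` generates `I V`, the centre of the lift of the valuation lies in
the chart `Spec A[I / f]`, and the ideal `D I` defines the preimage of `V(D) ∪ V(I)`. -/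
def IsLogDesingularization {F : Type u} [Field F] (V : ValuationSubring F) (A : Subring F)
    (D I : Ideal A) : Prop :=
  ∃ f ∈ I, f ≠ 0 ∧ (∀ a ∈ I, (a : F) / (f : F) ∈ V) ∧
    RegularPair (centreRing V (blowUpChart A I f))
      (Ideal.span {z | ∃ a ∈ D * I, (z : F) = (a : F)})

/-- The valuation ring `V` is log uniformizable on `Spec A`. (The blowings-up in the ideals
`I₀ * I₁` are cofinal: the blowing-up in `I₀ * I₁` factors through the blowing-up in `I₀`.) -/
def IsLogUniformizable {F : Type u} [Field F] (V : ValuationSubring F) (A : Subring F) : Prop :=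
  ∀ D I₀ : Ideal A, D ≠ ⊥ → I₀ ≠ ⊥ →
    ∃ I₁ : Ideal A, I₁ ≠ ⊥ ∧ IsLogDesingularization V A D (I₀ * I₁)

/-- The image of the `R`-algebra generated by `T`. -/
def adjoined {R K : Type u} [CommRing R] [Field K] (ρ : R →+* K) (T : Set K) : Subring K :=
  Subring.closure ((ρ.range : Set K) ∪ T)

/-- The quadratic transform of `Q` along `V`: the local ring, at the centre of `V`, of the
blowing-up of `Spec Q` in the centre of `V`. -/
def quadraticTransform {K : Type u} [Field K] (V : ValuationSubring K) (Q : Subring K) :
    Subring K :=
  centreRing V (Subring.closure ((Q : Set K) ∪ {t | ∃ y ∈ Q, ∃ z ∈ Q,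
    V.valuation y < 1 ∧ z ≠ 0 ∧ V.valuation z < 1 ∧
      (∀ w ∈ Q, V.valuation w < 1 → V.valuation w ≤ V.valuation z) ∧ t = y / z}))

/-- The sequence of quadratic transforms of the local ring of `Spec A` at the centre of `V`. -/
def quadraticSequence {K : Type u} [Field K] (V : ValuationSubring K) (A : Subring K) :
    ℕ → Subring K
  | 0 => centreRing V A
  | n + 1 => quadraticTransform V (quadraticSequence V A n)

/-- The values of the maximal ideals in the sequence of quadratic transforms have an infinite sum:
every value of `V` is exceeded by the value of all products `z 0 * ... * z (n - 1)` of elements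
`z i` of the maximal ideals of the rings of the sequence, for some `n`. -/
def IsDivergent {K : Type u} [Field K] (V : ValuationSubring K) (A : Subring K) : Prop :=
  ∀ x : K, x ≠ 0 → ∃ n : ℕ, ∀ z : ℕ → K,
    (∀ i < n, z i ∈ quadraticSequence V A i ∧ z i ≠ 0 ∧ V.valuation (z i) < 1) →
      V.valuation (∏ i ∈ Finset.range n, z i) < V.valuation x

/-- `V` is the composite of the valuation ring `V₁` and the valuation ring `W` of its residue
field. -/
def IsComposite {K : Type u} [Field K] (V V₁ : ValuationSubring K)
    (W : ValuationSubring (ResidueField V₁)) : Prop :=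
  ∀ z : K, z ∈ V ↔ ∃ hz : z ∈ V₁, residue V₁ ⟨z, hz⟩ ∈ W

section key

open Polynomial

variable {K : Type u} [Field K] (V : ValuationSubring K) {L : Subfield K} (θ : K)

/-- The monic polynomial `ϕ` over `L` of positive degree is a key polynomial for the valuation
`f ↦ |f(θ)|` of polynomials: if `f` and `g` are nonzero polynomials of smaller degree and
`f g = q ϕ + r` with `deg r < deg ϕ`, then `|q(θ) ϕ(θ)| < |f(θ) g(θ)|`. (So `|r(θ)| = |f(θ) g(θ)|`,
and the values of the polynomials of smaller degree define a valuation of `L[X] / (ϕ)`.) -/
def IsKey (ϕ : L[X]) : Prop :=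
  ϕ.Monic ∧ 0 < ϕ.natDegree ∧ ∀ f g : L[X], f.degree < ϕ.degree → g.degree < ϕ.degree →
    f ≠ 0 → g ≠ 0 → V.valuation (aeval θ (f * g /ₘ ϕ * ϕ)) < V.valuation (aeval θ (f * g))

/-- The polynomials of degree less than the degree of `ϕ` have an orthogonal basis over `L` with
respect to the valuation `f ↦ |f(θ)|`. (For a key polynomial `ϕ` this means that the valued field
`L[X] / (ϕ)` is an extension of `L` of degree `e f`. It holds if there are no limit key
polynomials of degree at most `deg ϕ`.) -/
def IsDefectless (ϕ : L[X]) : Prop :=
  ∃ (n : ℕ) (β : Fin n → L[X]), (∀ i, (β i).degree < ϕ.degree ∧ β i ≠ 0) ∧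
    (∀ f : L[X], f.degree < ϕ.degree → ∃ c : Fin n → L, f = ∑ i, C (c i) * β i) ∧
    ∀ (c : Fin n → L) (i : Fin n), V.valuation (aeval θ (C (c i) * β i)) ≤
      V.valuation (aeval θ (∑ j, C (c j) * β j))

/-- The value of `f(θ)` is determined by `ϕ`: in the `ϕ`-adic expansion `f = ∑ f_k ϕ ^ k` with
`deg f_k < deg ϕ` the value of no term at `θ` is greater than the value of `f(θ)`. -/
def IsDetermined (ϕ f : L[X]) : Prop :=
  ∃ (N : ℕ) (d : ℕ → L[X]), (∀ k, (d k).degree < ϕ.degree) ∧
    f = ∑ k ∈ Finset.range N, d k * ϕ ^ k ∧
    ∀ k < N, V.valuation (aeval θ (d k * ϕ ^ k)) ≤ V.valuation (aeval θ f)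

end key

open Polynomial in
/-- The extension `L ⊆ L'` of subfields of `K` is finite and has no defect with respect to the
valuation ring `V` of `K`. That is, for some valuation ring `W` over `V` of some extension field
`M` of `K`, some root `ζ ∈ M` of a monic polynomial `f` over `V ∩ L` with `|f'(ζ)| = 1`, and some
nonzero elements `β i` of `L'`, the field `L'(ζ)` is the sum of the lines `L(ζ) β i`, and the `β
i` are orthogonal over `L(ζ) = L[ζ]`. (The extension `L(ζ) / L` is unramified. If `L^h ⊆ L'^h ⊆
K^h` are the henselizations for `V` and `[L'^h : L^h] = e f`, then this holds with `M = K^h`,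
`L(ζ)` a large finite subextension of `L^h / L`, and with products of `e` elements of `L'` whose
values represent the cosets of the value group and `f` elements of `L'` whose residues form a
basis for the `β i`. For `M = K` and `L(ζ) = L` it is the condition `[L' : L] = e f`.) -/
def IsFiniteWithoutDefect {K : Type u} [Field K] (V : ValuationSubring K) (L L' : Subfield K) :
    Prop :=
  L ≤ L' ∧ ∃ (M : Type u) (_ : Field M) (_ : Algebra K M) (W : ValuationSubring M) (ζ : M)
    (f : L[X]) (n : ℕ) (β : Fin n → K), W.comap (algebraMap K M) = V ∧ f.Monic ∧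
    (∀ i, (f.coeff i : K) ∈ V) ∧ eval₂ ((algebraMap K M).comp L.subtype) ζ f = 0 ∧
    W.valuation (eval₂ ((algebraMap K M).comp L.subtype) ζ (derivative f)) = 1 ∧
    (∀ i, β i ∈ L' ∧ β i ≠ 0) ∧
    (∀ z ∈ L', ∃ c : Fin n → L[X], algebraMap K M z =
      ∑ i, eval₂ ((algebraMap K M).comp L.subtype) ζ (c i) * algebraMap K M (β i)) ∧
    ∀ (c : Fin n → L[X]) (i : Fin n),
      W.valuation (eval₂ ((algebraMap K M).comp L.subtype) ζ (c i) * algebraMap K M (β i)) ≤
        W.valuation (∑ j, eval₂ ((algebraMap K M).comp L.subtype) ζ (c j) * algebraMap K M (β j))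

open Polynomial in
/-- The subfields `L` of `K` which are reached from the field `E` by a tower of steps without
defect with respect to the valuation ring `V` of `K`. -/
inductive Tower (E : Type u) {K : Type u} [Field E] [Field K] [Algebra E K]
    (V : ValuationSubring K) : Subfield K → Prop
  /-- The tower starts with (the image of) `E`. -/
  | base : Tower E V (algebraMap E K).fieldRange
  /-- The step from `L` to `L(t)`, where `t` is transcendental and the value of every polynomial in
  `t` is determined by a defectless key polynomial. (This holds if the valuation of `L(t)` has no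
  limit key polynomials; for example, if `L` is algebraically closed, if `t` is a limit of a
  pseudo-convergent sequence of transcendental type, or if the value or the residue of a
  defectless key polynomial at `t` is transcendental over `L`.) -/
  | transcendental (L : Subfield K) (t : K) : Tower E V L → Transcendental L t →
    (∀ f : L[X], ∃ ϕ : L[X], IsKey V t ϕ ∧ IsDefectless V t ϕ ∧ IsDetermined V t ϕ f) →
    Tower E V (L ⊔ Subfield.closure {t})
  /-- The step from `L` to a finite extension `L'` without defect. -/
  | finite (L L' : Subfield K) : Tower E V L → IsFiniteWithoutDefect V L L' → Tower E V L'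

/-- Every element of the field `K` is a fraction of elements of `A`. -/
def HasFractionField {K : Type u} [Field K] (A : Subring K) : Prop :=
  ∀ z : K, ∃ a ∈ A, ∃ b ∈ A, b ≠ 0 ∧ z = a * b⁻¹

/-- The field `K` is finitely generated over `R`: it is the fraction field of an `R`-algebra of
finite type. -/
def IsFinitelyGenerated {R K : Type u} [CommRing R] [Field K] (ρ : R →+* K) : Prop :=
  ∃ T : Set K, T.Finite ∧ HasFractionField (adjoined ρ T)

/-- The class of valuations (of fields over `R`) which are reached from the discrete and divergent
ones and from known ones by compositions and by towers without defect. -/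
inductive Reachable (R : Type u) [CommRing R] :
    ∀ {K : Type u} [Field K], (R →+* K) → ValuationSubring K → Prop
  /-- The trivial valuations. -/
  | trivial {K : Type u} [Field K] (ρ : R →+* K) : Reachable R ρ (⊤ : ValuationSubring K)
  /-- The discrete valuations of rank one, and the valuations with divergent sequences of quadratic
  transforms of all `R`-algebras of finite type. -/
  | divergent {K : Type u} [Field K] (ρ : R →+* K) (V : ValuationSubring K) :
    (IsDiscreteValuationRing V ∨ ∀ T : Set K, T.Finite → adjoined ρ T ≤ V.toSubring →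
      IsDivergent V (adjoined ρ T)) → Reachable R ρ V
  /-- The valuations of a finitely generated field which are log uniformizable on the spectra of all
  `R`-algebras of finite type with this fraction field. -/
  | known {K : Type u} [Field K] (ρ : R →+* K) (V : ValuationSubring K) : IsFinitelyGenerated ρ →
    (∀ T : Set K, T.Finite → adjoined ρ T ≤ V.toSubring → HasFractionField (adjoined ρ T) →
      IsLogUniformizable V (adjoined ρ T)) → Reachable R ρ V
  /-- The composites of a valuation ring `V₁` and a valuation ring `W` of its residue field. -/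
  | composite {K : Type u} [Field K] (ρ : R →+* K) (V V₁ : ValuationSubring K)
    (W : ValuationSubring (ResidueField V₁)) (hρ : ∀ a, ρ a ∈ V₁.toSubring) :
    IsComposite V V₁ W → Reachable R ρ V₁ →
    Reachable R ((residue V₁).comp (ρ.codRestrict V₁.toSubring hρ)) W → Reachable R ρ V
  /-- The valuations of a field `K` which is reached by a tower without defect from a finitely
  generated field `E` whose valuation is in the class. -/
  | tower {E K : Type u} [Field E] [Field K] [Algebra E K] (ρ : R →+* E)
    (V : ValuationSubring K) : (∀ a, algebraMap E K (ρ a) ∈ V) → IsFinitelyGenerated ρ →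
    Reachable R ρ (V.comap (algebraMap E K)) → Tower E V ⊤ →
    Reachable R ((algebraMap E K).comp ρ) V

lemma quadraticSequence_eq {K : Type u} [Field K] (V : ValuationSubring K) (A : Subring K) :
    quadraticSequence V A = qseq V A := by
  funext n
  induction n with
  | zero => rfl
  | succ n ih =>
    change quadraticTransform V (quadraticSequence V A n) = qt V.toSubring (qseq V A n)
    rw [ih, qt_val]
    rfl

lemma IsDivergent.dv {K : Type u} [Field K] {V : ValuationSubring K} {A : Subring K}
    (h : IsDivergent V A) : Dv V (qseq V A) := by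
  rw [← quadraticSequence_eq]
  exact dv_of_lt h

/-- The steps of a tower. -/
lemma Tower.inv {E K : Type u} [Field E] [Field K] [Algebra E K] {V : ValuationSubring K}
    {R' : Subring K} (h0 : Pool.Agent.H176.DT.Inv V R' (algebraMap E K).fieldRange.subtype)
    {L : Subfield K} (hL : Tower E V L) : Pool.Agent.H176.DT.Inv V R' L.subtype := by
  have kp : ∀ {L : Subfield K} {θ : K} {ϕ : Polynomial L}, IsKey V θ ϕ → IsDefectless V θ ϕ →
      ∃ (n : ℕ) (β : Fin n → Polynomial L), Pool.Agent.H176.DT.KP V θ ϕ β := by
    rintro L θ ϕ ⟨h1, h2, h3⟩ ⟨n, β, h4, h5, h6⟩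
    exact ⟨n, β, h1, h2, fun i => (h4 i).1, fun i => (h4 i).2, h5, h6, h3⟩
  induction hL with
  | base => exact h0
  | transcendental L t _ ht hdom ih =>
    refine Pool.Agent.H176.DT.sub_trans V _ t ht (fun f => ?_) ih
    obtain ⟨ϕ, h1, h2, N, d, h3, h4, h5⟩ := hdom f
    obtain ⟨n, β, h6⟩ := kp h1 h2
    exact ⟨ϕ, n, β, h6, N, d, ⟨h3, h4⟩, h5⟩
  | finite L L' _ hnd ih => exact Pool.Agent.H176.DT.sub_nd V _ hnd.1 hnd.2 ih

lemma Reachable.good {R : Type u} [CommRing R] (hR : HJ R) {K : Type u} [Field K]
    {ρ : R →+* K} {V : ValuationSubring K} (h : Reachable R ρ V) : Pool.Agent.R187.CT.Good ρ V := by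
  induction h with
  | trivial ρ => exact Pool.Agent.R187.CT.good_top ρ
  | divergent ρ V h =>
    exact Pool.Agent.R187.CT.good_dv hR ρ V (h.imp_right fun h T hT hTV => (h T hT hTV).dv)
  | known ρ V hK h => exact Pool.Agent.R187.CT.good_given hR ρ V hK h
  | composite ρ V V₁ W hρ hc _ _ ih₁ ihW =>
    exact Pool.Agent.R187.CT.good_comp hR ρ hρ hc ih₁ ihW
  | tower ρ V hρ hE _ ht ih =>
    exact Pool.Agent.R187.CT.good_tower hR ρ V hρ hE ih fun R' h0 => ht.inv h0

/-- Let `k` be a field, `K` a finitely generated field extension of `k`, and `V` a valuation ring of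
`K` which contains `k` and is in the class `Reachable`. Then `K` has a projective model on which the
centre of `V` is a regular point. Moreover `V` is log uniformizable on the spectra of all finitely
generated `k`-algebras in `V` with the fraction field `K`. -/
theorem result {k K : Type u} [Field k] [Field K] [Algebra k K] [Algebra.EssFiniteType k K]
    (V : ValuationSubring K) (hkV : ∀ a : k, algebraMap k K a ∈ V)
    (hV : Reachable k (algebraMap k K) V) :
    IsUniformizable k V ∧ ∀ T : Set K, T.Finite → adjoined (algebraMap k K) T ≤ V.toSubring →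
      HasFractionField (adjoined (algebraMap k K) T) →
      IsLogUniformizable V (adjoined (algebraMap k K) T) := by
  classical
  have hR : HJ k := hj_field
  have hall : ∀ T : Set K, T.Finite → adjoined (algebraMap k K) T ≤ V.toSubring →
      HasFractionField (adjoined (algebraMap k K) T) →
      IsLogUniformizable V (adjoined (algebraMap k K) T) := by
    intro T hT hTV hTK
    exact (hV.good hR).logUnif hR hT hTV le_rfl
      (fun b hb => ⟨b, hb, 1, Subring.one_mem _, one_ne_zero,
        by rw [inv_one]; exact Subring.one_mem _, by rw [inv_one, mul_one]⟩) hTK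
  refine ⟨?_, hall⟩
  -- an affine model
  obtain ⟨S, hSf, hSV, hfrS⟩ : ∃ S : Set K, S.Finite ∧
      Subring.closure (((algebraMap k K).range : Set K) ∪ S) ≤ V.toSubring ∧
      (∀ z : K, ∃ a ∈ Subring.closure (((algebraMap k K).range : Set K) ∪ S),
        ∃ b ∈ Subring.closure (((algebraMap k K).range : Set K) ∪ S), b ≠ 0 ∧ z = a / b) := by
    obtain ⟨σ, hσ⟩ := (Algebra.essFiniteType_iff (R := k) (S := K)).1 inferInstance
    let f : K → K := fun s => if s ∈ V then s else s⁻¹
    have hfV : ∀ s, f s ∈ V := by
      intro s
      by_cases hs : s ∈ V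
      · simp only [f, if_pos hs]; exact hs
      · simp only [f, if_neg hs]; exact (V.mem_or_inv_mem s).resolve_left hs
    have hSV : Subring.closure (((algebraMap k K).range : Set K) ∪ (f '' (σ : Set K))) ≤
        V.toSubring := by
      rw [Subring.closure_le]
      rintro z (⟨a, rfl⟩ | ⟨s, -, rfl⟩)
      · exact hkV a
      · exact hfV s
    set A := Subring.closure (((algebraMap k K).range : Set K) ∪ (f '' (σ : Set K))) with hA
    -- the fractions form a ring
    have hsub : ∀ x ∈ Algebra.adjoin k (σ : Set K), ∃ a ∈ A, ∃ b ∈ A, b ≠ 0 ∧ x = a / b := by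
      intro x hx
      induction hx using Algebra.adjoin_induction with
      | mem s hs =>
        have h1 : f s ∈ A := Subring.subset_closure (Or.inr ⟨s, hs, rfl⟩)
        by_cases hsV : s ∈ V
        · simp only [f, if_pos hsV] at h1
          exact ⟨s, h1, 1, A.one_mem, one_ne_zero, (div_one s).symm⟩
        · simp only [f, if_neg hsV] at h1
          have h0 : s ≠ 0 := fun h => hsV (h ▸ V.zero_mem)
          exact ⟨1, A.one_mem, s⁻¹, h1, inv_ne_zero h0, by rw [one_div, inv_inv]⟩
      | algebraMap r =>
        exact ⟨_, Subring.subset_closure (Or.inl ⟨r, rfl⟩), 1, A.one_mem, one_ne_zero,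
          (div_one _).symm⟩
      | add x y hx hy h1 h2 =>
        obtain ⟨a, ha, b, hb, hb0, rfl⟩ := h1
        obtain ⟨c, hc, d, hd, hd0, rfl⟩ := h2
        exact ⟨a * d + b * c, A.add_mem (A.mul_mem ha hd) (A.mul_mem hb hc), b * d,
          A.mul_mem hb hd, mul_ne_zero hb0 hd0, div_add_div _ _ hb0 hd0⟩
      | mul x y hx hy h1 h2 =>
        obtain ⟨a, ha, b, hb, hb0, rfl⟩ := h1
        obtain ⟨c, hc, d, hd, hd0, rfl⟩ := h2
        exact ⟨a * c, A.mul_mem ha hc, b * d, A.mul_mem hb hd, mul_ne_zero hb0 hd0,
          div_mul_div_comm _ _ _ _⟩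
    refine ⟨f '' (σ : Set K), σ.finite_toSet.image _, hSV, ?_⟩
    intro z
    obtain ⟨t, ht, htu, hzt⟩ := hσ z
    obtain ⟨a, ha, b, hb, hb0, h1⟩ := hsub _ ht
    obtain ⟨c, hc, d, hd, hd0, h2⟩ := hsub _ hzt
    have ht0 : t ≠ 0 := htu.ne_zero
    have ha0 : a ≠ 0 := by
      rintro rfl
      exact ht0 (by rw [h1, zero_div])
    refine ⟨c * b, A.mul_mem hc hb, d * a, A.mul_mem hd ha, mul_ne_zero hd0 ha0, ?_⟩
    rw [eq_div_iff (mul_ne_zero hd0 ha0)]
    rw [h1] at h2
    field_simp at h2
    linear_combination h2
  set A : Subring K := Subring.closure (((algebraMap k K).range : Set K) ∪ S) with hA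
  have hAK : ∀ z : K, ∃ a ∈ A, ∃ b ∈ A, b ≠ 0 ∧ z = a * b⁻¹ := by
    intro z
    obtain ⟨a, ha, b, hb, hb0, hz⟩ := hfrS z
    exact ⟨a, ha, b, hb, hb0, by rw [hz, div_eq_mul_inv]⟩
  have hLU : LogUnif V A := hall S hSf hSV hAK
  have hAN : IsNoetherianRing A := by
    have hOK : IsNoetherianRing (algebraMap k K).range :=
      isNoetherianRing_of_surjective k _ (algebraMap k K).rangeRestrict
        (algebraMap k K).rangeRestrict_surjective
    exact Pool.Agent.H176.DT.p_noe _ _ hSf
  have hSU : Pool.Agent.H176.DT.SU V A := Pool.Agent.H176.DT.p_base _ _ ⟨hSV, hAK⟩ hLU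
  obtain ⟨T', hT'f, hT'V, hreg, -⟩ := Pool.Agent.H176.DT.emb_LU V A hSV hSU ∅ Set.finite_empty
    (by simp)
  have hT'V' : T' ⊆ V := fun z hz => hT'V (Subring.subset_closure (Or.inr hz))
  -- homogeneous coordinates
  obtain ⟨N, t, ht⟩ := exists_fin_range (hSf.union hT'f)
  let H : Fin (N + 1) → K := Fin.cons 1 t
  have hH0 : H 0 = 1 := rfl
  have hHs : ∀ i : Fin N, H i.succ = t i := fun i => rfl
  have hHr : Set.range (fun l => H l / H 0) = insert 1 (S ∪ T') := by
    rw [← ht]
    ext z
    simp only [hH0, div_one]
    constructor
    · rintro ⟨l, rfl⟩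
      induction l using Fin.cases with
      | zero => exact Or.inl rfl
      | succ i => exact Or.inr ⟨i, rfl⟩
    · rintro (rfl | ⟨i, rfl⟩)
      · exact ⟨0, rfl⟩
      · exact ⟨i.succ, rfl⟩
  have hcl : Subring.closure ((((algebraMap k K).range : Subring K) : Set K) ∪
      insert 1 (S ∪ T')) = Subring.closure ((A : Set K) ∪ T') := by
    apply le_antisymm
    · rw [Subring.closure_le]
      rintro z (hz | rfl | hz | hz)
      · exact Subring.subset_closure (Or.inl (Subring.subset_closure (Or.inl hz)))
      · exact Subring.one_mem _
      · exact Subring.subset_closure (Or.inl (Subring.subset_closure (Or.inr hz)))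
      · exact Subring.subset_closure (Or.inr hz)
    · rw [Subring.closure_le]
      rintro z (hz | hz)
      · refine (Subring.closure_mono ?_) hz
        rintro w (hw | hw)
        · exact Or.inl hw
        · exact Or.inr (Or.inr (Or.inl hw))
      · exact Subring.subset_closure (Or.inr (Or.inr (Or.inr hz)))
  have hVcl : Subring.closure ((((algebraMap k K).range : Subring K) : Set K) ∪
      insert 1 (S ∪ T')) ≤ V.toSubring := by
    rw [hcl]
    exact hT'V
  have hch : (modelChart k H 0).toSubring = Subring.closure ((A : Set K) ∪ T') := by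
    unfold modelChart
    rw [adjoin_toSubring, hHr, hcl]
  obtain ⟨h3, P, hP, h4, h5⟩ := regular_centre (R := k) (T := Set.range fun l => H l / H 0)
    (V := V) (by rw [hHr]; exact hVcl) (by rw [hHr, hcl]; exact hreg)
  refine ⟨N + 1, H, 0, by rw [hH0]; exact one_ne_zero, ?_, ?_, P, hP, h4, h5⟩
  · intro l
    exact h3 ⟨H l / H 0, Algebra.subset_adjoin ⟨l, rfl⟩⟩
  · intro z
    obtain ⟨a, ha, b, hb, hb0, hz⟩ := hfrS z
    have hle : A ≤ (modelChart k H 0).toSubring := by
      rw [hch]
      exact fun x hx => Subring.subset_closure (Or.inl hx)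
    exact ⟨a, hle ha, b, hle hb, hb0, hz⟩

end Pool.Agent.Results.MP_53121e_ag.CompositesAndTowers
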